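import Pool.Agent.Helper19.Un.Stmts

set_option autoImplicit false

/-!
# Assembly of the lower bound for the cuspidal eigenvalues (module MAIN)
-/

namespace Pool.Agent.Helper19.Un

open MeasureTheory Topology
open scoped ENNReal ComplexConjugate

variable {m : ℕ}

/-- the hyperbolic volume of a Siegel-type set is finite -/
theorem main_hyp_Sieg (C a : ℝ) (ha : 0 < a) : hyp m (Sieg m C a) < ⊤ := by
  have hmeas := measurableSet_Sieg (m := m) C a
  -- a lower bound for the height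
  set c : ℝ := min 1 (a / (2 + C ^ 2)) with hc
  have hc0 : 0 < c := by
    rw [hc]
    exact lt_min one_pos (by positivity)
  have hlow : ∀ p ∈ Sieg m C a, c * (1 + |p.1.re|) ≤ hgt p := by
    rintro p ⟨h1, h2, h3⟩
    have hz : ‖p.2‖ ^ 2 ≤ C ^ 2 := pow_le_pow_left₀ (norm_nonneg _) h1 2
    have hx : 2 * p.1.re ≤ -a - ‖p.2‖ ^ 2 := by
      unfold hgt at h3; linarith
    have hxneg : p.1.re ≤ 0 := by nlinarith [sq_nonneg ‖p.2‖]
    rw [abs_of_nonpos hxneg]
    have hh : hgt p = -2 * p.1.re - ‖p.2‖ ^ 2 := by unfold hgt; ring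
    have hc1 : c ≤ 1 := min_le_left _ _
    have hc2 : c * (2 + C ^ 2) ≤ a := by
      have : c ≤ a / (2 + C ^ 2) := min_le_right _ _
      calc c * (2 + C ^ 2) ≤ a / (2 + C ^ 2) * (2 + C ^ 2) := by gcongr
        _ = a := by field_simp
    set X : ℝ := -p.1.re with hX
    have hX0 : 0 ≤ X := by linarith
    have hh' : hgt p = 2 * X - ‖p.2‖ ^ 2 := by rw [hh]; ring
    have e : 1 + -p.1.re = 1 + X := rfl
    rw [e]
    have h5 : c * (1 + X) = c / 2 * (2 + C ^ 2) + c / 2 * (2 * X - C ^ 2) := by ring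
    rcases le_total (2 * X - C ^ 2) 0 with h6 | h6
    · nlinarith
    · nlinarith
  set G : ℂ → ℝ≥0∞ := fun z => ENNReal.ofReal ((c ^ (m + 2))⁻¹ * ((1 + |z.re|) ^ (m + 2))⁻¹)
    with hG
  have hGm : Measurable G := by
    rw [hG]
    exact (measurable_const.mul (((measurable_const.add
      Complex.measurable_re.abs).pow_const (m + 2)).inv)).ennreal_ofReal
  have h1 : hyp m (Sieg m C a)
      ≤ ∫⁻ p : Pt m in ({z : ℂ | |z.im| ≤ C}) ×ˢ (Metric.closedBall (0 : E m) C), G p.1 := by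
    rw [hyp, withDensity_apply _ hmeas]
    rw [Measure.restrict_restrict hmeas]
    have hset : Sieg m C a ∩ SD m ⊆ ({z : ℂ | |z.im| ≤ C}) ×ˢ (Metric.closedBall (0 : E m) C) := by
      rintro p ⟨⟨h1, h2, h3⟩, -⟩
      exact ⟨h2, by simpa using h1⟩
    calc _ ≤ ∫⁻ p : Pt m in Sieg m C a ∩ SD m, G p.1 := by
            refine setLIntegral_mono' (hmeas.inter measurableSet_SD) ?_
            rintro p ⟨hp, -⟩
            rw [hG]
            apply ENNReal.ofReal_le_ofReal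
            rw [← mul_inv, ← mul_pow]
            have := hlow p hp
            have h7 : 0 < c * (1 + |p.1.re|) := by positivity
            exact inv_anti₀ (by positivity) (pow_le_pow_left₀ h7.le this (m + 2))
      _ ≤ _ := lintegral_mono_set hset
  refine lt_of_le_of_lt h1 ?_
  rw [show (volume : Measure (Pt m)) = (volume : Measure ℂ).prod (volume : Measure (E m)) from rfl,
    ← Measure.prod_restrict]
  rw [lintegral_prod (fun p : Pt m => G p.1) (hGm.comp measurable_fst).aemeasurable]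
  simp only [lintegral_const, Measure.restrict_apply_univ]
  rw [lintegral_mul_const _ hGm]
  apply ENNReal.mul_lt_top _ measure_closedBall_lt_top
  -- the integral over `z`
  have h2 := (Complex.volume_preserving_equiv_real_prod).symm
  have hSm : MeasurableSet {z : ℂ | |z.im| ≤ C} :=
    measurableSet_le Complex.measurable_im.abs measurable_const
  rw [← lintegral_indicator hSm, ← h2.lintegral_comp (hGm.indicator hSm)]
  have h3 : ∀ q : ℝ × ℝ, ({z : ℂ | |z.im| ≤ C}).indicator G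
        (Complex.measurableEquivRealProd.symm q)
      = ENNReal.ofReal ((c ^ (m + 2))⁻¹ * ((1 + |q.1|) ^ (m + 2))⁻¹) *
        (Set.Icc (-C) C).indicator (fun _ => (1 : ℝ≥0∞)) q.2 := by
    intro q
    have e1 : (Complex.measurableEquivRealProd.symm q).re = q.1 := rfl
    have e2 : (Complex.measurableEquivRealProd.symm q).im = q.2 := rfl
    by_cases hq : |q.2| ≤ C
    · have hq' : q.2 ∈ Set.Icc (-C) C := abs_le.1 hq
      rw [Set.indicator_of_mem (by simpa [e2] using hq), Set.indicator_of_mem hq',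
        mul_one, hG]
      simp only [e1]
    · have hq' : q.2 ∉ Set.Icc (-C) C := fun h => hq (abs_le.2 h)
      rw [Set.indicator_of_notMem (by simpa [e2] using hq),
        Set.indicator_of_notMem hq', mul_zero]
  simp only [h3]
  rw [show (volume : Measure (ℝ × ℝ)) = (volume : Measure ℝ).prod (volume : Measure ℝ) from rfl,
    lintegral_prod_mul
      (f := fun x : ℝ => ENNReal.ofReal ((c ^ (m + 2))⁻¹ * ((1 + |x|) ^ (m + 2))⁻¹))
      (g := fun x : ℝ => (Set.Icc (-C) C).indicator (fun _ => (1 : ℝ≥0∞)) x)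
      (by fun_prop) ((measurable_const.indicator measurableSet_Icc).aemeasurable)]
  apply ENNReal.mul_lt_top
  · have hint : Integrable (fun x : ℝ => (c ^ (m + 2))⁻¹ * ((1 + |x|) ^ (m + 2))⁻¹) := by
      refine Integrable.const_mul ?_ _
      have h := integrable_one_add_norm (E := ℝ) (μ := volume) (r := ((m + 2 : ℕ) : ℝ))
        (by rw [Module.finrank_self]; push_cast; linarith [(Nat.cast_nonneg m : (0 : ℝ) ≤ m)])
      refine h.congr ?_
      filter_upwards with x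
      rw [Real.norm_eq_abs, Real.rpow_neg (by positivity), Real.rpow_natCast]
    exact hint.lintegral_lt_top
  · rw [lintegral_indicator measurableSet_Icc]
    simp

theorem Kap.le_one {M : AddSubgroup (V m)} {κ : Pt m → ℝ} {C a : ℝ} (hK : Kap M κ C a)
    {p : Pt m} (hp : p ∈ SD m) : κ p ≤ 1 := by
  have h := hK.sum p hp
  have h1 := le_hasSum h (1 : Gam M) (fun j _ => hK.nonneg _)
  rw [Subgroup.coe_one, act_one p] at h1
  exact h1

theorem Kap.lintegral_lt_top {M : AddSubgroup (V m)} {κ : Pt m → ℝ} {C a : ℝ}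
    (hK : Kap M κ C a) : ∫⁻ p, ENNReal.ofReal (κ p) ∂(hyp m) < ⊤ := by
  have hmeas := measurableSet_Sieg (m := m) C a
  refine lt_of_le_of_lt ?_ (main_hyp_Sieg (m := m) C a hK.pos)
  rw [← lintegral_indicator_one hmeas]
  apply lintegral_mono_ae
  filter_upwards [ae_hyp_mem] with p hp
  by_cases h : p ∈ Sieg m C a
  · rw [Set.indicator_of_mem h]
    simpa using hK.le_one hp
  · have : κ p = 0 := by
      by_contra h0
      exact h (hK.supp p h0)
    simp [this]

theorem main_muP_nonneg {δ c u : ℝ} (hδ : 0 ≤ δ) (hc : 0 < c) (hu : 0 ≤ u) :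
    0 ≤ muP m δ c u := by
  unfold muP; positivity

theorem main_measurable_muP (δ c : ℝ) : Measurable (muP m δ c) := by
  unfold muP; fun_prop

theorem main_measurable_pd (e : Pt m) (f : Pt m → ℂ) : Measurable (pd e f) :=
  measurable_fderiv_apply_const ℝ f e

theorem main_measurable_XX (k : Fin m) (f : Pt m → ℂ) : Measurable (XX k f) := by
  have h1 : Measurable fun p : Pt m => (fderiv ℝ f p) := measurable_fderiv ℝ f
  have h2 : Measurable fun p : Pt m => ((-(starRingEnd ℂ) (p.2 k), ek k) : Pt m) :=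
    (((Complex.continuous_conj.comp (by fun_prop : Continuous fun p : Pt m => p.2 k)).neg).prodMk
      continuous_const).measurable
  unfold XX
  exact (isBoundedBilinearMap_apply (𝕜 := ℝ) (E := Pt m) (F := ℂ)).continuous.measurable.comp
    (h1.prodMk h2)

theorem main_measurable_YY (k : Fin m) (f : Pt m → ℂ) : Measurable (YY k f) := by
  have h1 : Measurable fun p : Pt m => (fderiv ℝ f p) := measurable_fderiv ℝ f
  have h2 : Measurable fun p : Pt m =>
      ((-(Complex.I * (starRingEnd ℂ) (p.2 k)), Complex.I • ek k) : Pt m) :=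
    (((continuous_const.mul (Complex.continuous_conj.comp
      (by fun_prop : Continuous fun p : Pt m => p.2 k))).neg).prodMk
      continuous_const).measurable
  unfold YY
  exact (isBoundedBilinearMap_apply (𝕜 := ℝ) (E := Pt m) (F := ℂ)).continuous.measurable.comp
    (h1.prodMk h2)

theorem main_measurable_gsq (f : Pt m → ℂ) : Measurable (gsq f) := by
  unfold gsq
  exact ((measurable_hgt.pow_const 2).mul (((main_measurable_pd _ f).norm.pow_const 2).add
    ((main_measurable_pd _ f).norm.pow_const 2))).add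
    (measurable_hgt.mul (Finset.measurable_sum _ fun k _ =>
      (((main_measurable_XX k f).norm.pow_const 2).add
      ((main_measurable_YY k f).norm.pow_const 2))))

theorem main_gh_le_gsq (f : Pt m → ℂ) (p : Pt m) : gh f p ≤ gsq f p := by
  unfold gh gsq
  have : 0 ≤ hgt p ^ 2 * ‖pd (1, 0) f p‖ ^ 2 := by positivity
  linarith [mul_add (hgt p ^ 2) (‖pd (1, 0) f p‖ ^ 2) (‖pd (Complex.I, 0) f p‖ ^ 2)]

theorem main_continuous_cellpt (β : Fin (2 * m) → E m) (c u : ℝ) :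
    Continuous fun x : (Fin (2 * m) → ℝ) × ℝ => cellpt β c x u := by
  unfold cellpt
  have h0 : Continuous fun x : (Fin (2 * m) → ℝ) × ℝ => ∑ i, x.1 i • β i := by fun_prop
  refine Continuous.prodMk ?_ h0
  rw [show (fun x : (Fin (2 * m) → ℝ) × ℝ => ((⟨-(u + ‖∑ i, x.1 i • β i‖ ^ 2) / 2,
      c * x.2⟩ : ℂ)))
    = fun x : (Fin (2 * m) → ℝ) × ℝ => ((-(u + ‖∑ i, x.1 i • β i‖ ^ 2) / 2 : ℝ) : ℂ)
      + ((c * x.2 : ℝ) : ℂ) * Complex.I from ?_]
  · refine Continuous.add (Complex.continuous_ofReal.comp ?_)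
      ((Complex.continuous_ofReal.comp (by fun_prop)).mul continuous_const)
    exact ((continuous_const.add (h0.norm.pow 2)).neg).div_const 2
  · funext x
    generalize ‖∑ i, x.1 i • β i‖ = A
    apply Complex.ext
    · simp only [Complex.add_re, Complex.ofReal_re, Complex.mul_re, Complex.I_re, Complex.I_im,
        Complex.ofReal_im]
      ring
    · simp only [Complex.add_im, Complex.ofReal_re, Complex.mul_im, Complex.I_re, Complex.I_im,
        Complex.ofReal_im]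
      ring

theorem main_measurable_cell (β : Fin (2 * m) → E m) (c u : ℝ) :
    Measurable fun x : (Fin (2 * m) → ℝ) × ℝ => cellpt β c x u :=
  (main_continuous_cellpt β c u).measurable

theorem main_cellInt_sum (β : Fin (2 * m) → E m) (c : ℝ) {ι : Type} (S : Finset ι)
    (F : ι → Pt m → ℝ≥0∞) (hF : ∀ i, Measurable (F i)) (u : ℝ) :
    cellInt β c (fun p => ∑ i ∈ S, F i p) u = ∑ i ∈ S, cellInt β c (F i) u := by
  unfold cellInt
  rw [lintegral_finsetSum]
  intro i _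
  exact (hF i).comp (main_measurable_cell β c u)

theorem main_pd_congr {f g : Pt m → ℂ} (h : ∀ p ∈ SD m, f p = g p) (e : Pt m) :
    ∀ p ∈ SD m, pd e f p = pd e g p := by
  intro p hp
  have he : f =ᶠ[𝓝 p] g := by
    filter_upwards [isOpen_SD.mem_nhds hp] with q hq using h q hq
  unfold pd
  rw [he.fderiv_eq]

theorem main_XX_congr {f g : Pt m → ℂ} (h : ∀ p ∈ SD m, f p = g p) (k : Fin m) :
    ∀ p ∈ SD m, XX k f p = XX k g p := by
  intro p hp
  have he : f =ᶠ[𝓝 p] g := by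
    filter_upwards [isOpen_SD.mem_nhds hp] with q hq using h q hq
  unfold XX
  rw [he.fderiv_eq]

theorem main_YY_congr {f g : Pt m → ℂ} (h : ∀ p ∈ SD m, f p = g p) (k : Fin m) :
    ∀ p ∈ SD m, YY k f p = YY k g p := by
  intro p hp
  have he : f =ᶠ[𝓝 p] g := by
    filter_upwards [isOpen_SD.mem_nhds hp] with q hq using h q hq
  unfold YY
  rw [he.fderiv_eq]

theorem main_lap_congr {f g : Pt m → ℂ} (h : ∀ p ∈ SD m, f p = g p) :
    ∀ p ∈ SD m, lap f p = lap g p := by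
  intro p hp
  unfold lap
  rw [main_pd_congr h _ p hp, main_pd_congr (main_pd_congr h _) _ p hp,
    main_pd_congr (main_pd_congr h _) _ p hp]
  congr 1
  congr 1
  refine Finset.sum_congr rfl fun k _ => ?_
  rw [main_XX_congr (main_XX_congr h k) k p hp, main_YY_congr (main_YY_congr h k) k p hp]

/-- if the gradient vanishes, then the Laplacian vanishes -/
theorem main_lap_zero {f : Pt m → ℂ} (h : ∀ p ∈ SD m, gsq f p = 0) :
    ∀ p ∈ SD m, lap f p = 0 := by
  have key : ∀ p ∈ SD m, pd (1, 0) f p = 0 ∧ pd (Complex.I, 0) f p = 0 ∧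
      ∀ k, XX k f p = 0 ∧ YY k f p = 0 := by
    intro p hp
    have hp0 : 0 < hgt p := hp
    have h0 := h p hp
    unfold gsq at h0
    have a1 : 0 ≤ ‖pd (1, 0) f p‖ ^ 2 := by positivity
    have a2 : 0 ≤ ‖pd (Complex.I, 0) f p‖ ^ 2 := by positivity
    have a3 : ∀ k : Fin m, 0 ≤ ‖XX k f p‖ ^ 2 + ‖YY k f p‖ ^ 2 := fun k => by positivity
    have a4 : 0 ≤ ∑ k : Fin m, (‖XX k f p‖ ^ 2 + ‖YY k f p‖ ^ 2) :=
      Finset.sum_nonneg fun k _ => a3 k
    have b1 : 0 ≤ hgt p ^ 2 * (‖pd (1, 0) f p‖ ^ 2 + ‖pd (Complex.I, 0) f p‖ ^ 2) := by positivity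
    have b2 : 0 ≤ hgt p * ∑ k : Fin m, (‖XX k f p‖ ^ 2 + ‖YY k f p‖ ^ 2) :=
      mul_nonneg hp0.le a4
    have c1 : hgt p ^ 2 * (‖pd (1, 0) f p‖ ^ 2 + ‖pd (Complex.I, 0) f p‖ ^ 2) = 0 := by linarith
    have c2 : hgt p * ∑ k : Fin m, (‖XX k f p‖ ^ 2 + ‖YY k f p‖ ^ 2) = 0 := by linarith
    have d1 : ‖pd (1, 0) f p‖ ^ 2 + ‖pd (Complex.I, 0) f p‖ ^ 2 = 0 :=
      (mul_eq_zero.1 c1).resolve_left (by positivity)
    have d2 : ∑ k : Fin m, (‖XX k f p‖ ^ 2 + ‖YY k f p‖ ^ 2) = 0 :=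
      (mul_eq_zero.1 c2).resolve_left hp0.ne'
    have d3 := (Finset.sum_eq_zero_iff_of_nonneg fun k _ => a3 k).1 d2
    refine ⟨?_, ?_, fun k => ?_⟩
    · have : ‖pd (1, 0) f p‖ ^ 2 = 0 := by linarith
      simpa using this
    · have : ‖pd (Complex.I, 0) f p‖ ^ 2 = 0 := by linarith
      simpa using this
    · have e := d3 k (Finset.mem_univ k)
      have e1 : 0 ≤ ‖XX k f p‖ ^ 2 := by positivity
      have e2 : 0 ≤ ‖YY k f p‖ ^ 2 := by positivity
      constructor
      · have : ‖XX k f p‖ ^ 2 = 0 := by linarith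
        simpa using this
      · have : ‖YY k f p‖ ^ 2 = 0 := by linarith
        simpa using this
  intro p hp
  have z1 : ∀ (e : Pt m) (q : Pt m), pd e (fun _ => (0 : ℂ)) q = 0 := fun e q => by
    unfold pd; simp
  have z2 : ∀ (k : Fin m) (q : Pt m), XX k (fun _ => (0 : ℂ)) q = 0 := fun e q => by
    unfold XX; simp
  have z3 : ∀ (k : Fin m) (q : Pt m), YY k (fun _ => (0 : ℂ)) q = 0 := fun e q => by
    unfold YY; simp
  unfold lap
  rw [main_pd_congr (g := fun _ => (0 : ℂ)) (fun q hq => (key q hq).1) _ p hp, z1,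
    main_pd_congr (g := fun _ => (0 : ℂ)) (fun q hq => (key q hq).2.1) _ p hp, z1,
    (key p hp).1]
  have : ∑ k : Fin m, (XX k (XX k f) p + YY k (YY k f) p) = 0 := by
    refine Finset.sum_eq_zero fun k _ => ?_
    rw [main_XX_congr (g := fun _ => (0 : ℂ)) (fun q hq => ((key q hq).2.2 k).1) k p hp, z2,
      main_YY_congr (g := fun _ => (0 : ℂ)) (fun q hq => ((key q hq).2.2 k).2) k p hp, z3,
      add_zero]
  rw [this]
  ring

/-- a nonnegative continuous invariant function the `κ`-integral of which vanishes is zero -/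
theorem main_zero (hUN : ST_UNF) {M : AddSubgroup (V m)} (hM : IsLat M) {κ : Pt m → ℝ} {C a : ℝ}
    (hK : Kap M κ C a) {G : Pt m → ℝ} (hGm : Measurable G) (hGc : ContinuousOn G (SD m))
    (hG0 : ∀ p ∈ SD m, 0 ≤ G p) (hGi : ∀ γ ∈ Gam M, ∀ p ∈ SD m, G (act γ p) = G p)
    (h0 : ∫⁻ p, ENNReal.ofReal (κ p) * ENNReal.ofReal (G p) ∂(hyp m) = 0) :
    ∀ p ∈ SD m, G p = 0 := by
  have hκm : Measurable (fun p => ENNReal.ofReal (κ p)) :=
    hK.smooth.continuous.measurable.ennreal_ofReal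
  have hFAm : Measurable fun p => ENNReal.ofReal (G p) := hGm.ennreal_ofReal
  have hSAm : Measurable (fun p => ENNReal.ofReal (κ p) * ENNReal.ofReal (G p)) := hκm.mul hFAm
  have h1 : ∫⁻ p, (1 : ℝ≥0∞) * ENNReal.ofReal (G p) ∂(hyp m) = 0 := by
    have := hUN m M hM κ C a hK (fun _ => (1 : ℝ≥0∞)) (fun p => ENNReal.ofReal (G p))
      measurable_const hFAm (fun γ hγ p hp => by rw [hGi γ hγ p hp])
    rw [this]
    rw [lintegral_eq_zero_iff hSAm] at h0
    apply (lintegral_eq_zero_iff' ?_).2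
    · filter_upwards [h0] with p hp
      simp only [Pi.zero_apply] at hp ⊢
      rcases mul_eq_zero.1 hp with h | h
      · rw [h]; simp
      · rw [h]; simp
    · exact (hκm.aemeasurable.mul aemeasurable_const).mul hFAm.aemeasurable
  simp only [one_mul] at h1
  rw [lintegral_eq_zero_iff hFAm] at h1
  by_contra hcon
  push Not at hcon
  obtain ⟨p, hp, hup⟩ := hcon
  have hopen : IsOpen (SD m ∩ G ⁻¹' {0}ᶜ) :=
    hGc.isOpen_inter_preimage isOpen_SD isOpen_compl_singleton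
  have hnull : hyp m (SD m ∩ G ⁻¹' {0}ᶜ) = 0 := by
    have : ∀ᵐ q ∂(hyp m), q ∉ SD m ∩ G ⁻¹' {0}ᶜ := by
      filter_upwards [h1] with q hq hq2
      simp only [Pi.zero_apply, ENNReal.ofReal_eq_zero] at hq
      exact hq2.2 (le_antisymm hq (hG0 q hq2.1))
    exact measure_eq_zero_iff_ae_notMem.2 this
  have hpos : 0 < (volume : Measure (Pt m)) (SD m ∩ G ⁻¹' {0}ᶜ) :=
    hopen.measure_pos volume ⟨p, hp, hup⟩
  have hdm : Measurable fun p : Pt m => ENNReal.ofReal ((hgt p ^ (m + 2))⁻¹) :=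
    ((measurable_hgt.pow_const (m + 2)).inv).ennreal_ofReal
  rw [hyp, withDensity_apply_eq_zero' hdm.aemeasurable] at hnull
  have hsub : {p : Pt m | ENNReal.ofReal ((hgt p ^ (m + 2))⁻¹) ≠ 0} ∩ (SD m ∩ G ⁻¹' {0}ᶜ)
      = SD m ∩ G ⁻¹' {0}ᶜ := by
    apply Set.inter_eq_right.2
    rintro q ⟨hq, -⟩
    have : (0 : ℝ) < hgt q := hq
    simp only [Set.mem_ofPred_eq, ne_eq, ENNReal.ofReal_eq_zero, not_le]
    positivity
  rw [hsub, Measure.restrict_apply hopen.measurableSet, Set.inter_assoc] at hnull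
  have hsub2 : SD m ∩ (G ⁻¹' {0}ᶜ ∩ SD m) = SD m ∩ G ⁻¹' {0}ᶜ := by
    ext q; simp only [Set.mem_inter_iff]; tauto
  rw [hsub2] at hnull
  exact hpos.ne' hnull

theorem main_continuousOn_gsq {f : Pt m → ℂ} (hf : ContDiffOn ℝ 2 f (SD m)) :
    ContinuousOn (gsq f) (SD m) := by
  have hd : ContinuousOn (fun p : Pt m => fderiv ℝ f p) (SD m) :=
    (hf.continuousOn_fderiv_of_isOpen isOpen_SD (by norm_num))
  have hpd : ∀ e : Pt m, ContinuousOn (pd e f) (SD m) := fun e => by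
    unfold pd
    exact hd.clm_apply continuousOn_const
  have hX : ∀ k : Fin m, ContinuousOn (XX k f) (SD m) := fun k => by
    unfold XX
    refine hd.clm_apply ?_
    exact (((Complex.continuous_conj.comp
      (by fun_prop : Continuous fun p : Pt m => p.2 k)).neg).prodMk
      continuous_const).continuousOn
  have hY : ∀ k : Fin m, ContinuousOn (YY k f) (SD m) := fun k => by
    unfold YY
    refine hd.clm_apply ?_
    exact (((continuous_const.mul (Complex.continuous_conj.comp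
      (by fun_prop : Continuous fun p : Pt m => p.2 k))).neg).prodMk
      continuous_const).continuousOn
  unfold gsq
  exact ((continuous_hgt.continuousOn.pow 2).mul (((hpd _).norm.pow 2).add
    ((hpd _).norm.pow 2))).add
    (continuous_hgt.continuousOn.mul (continuousOn_finsetSum _ fun k _ =>
      (((hX k).norm.pow 2).add ((hY k).norm.pow 2))))

theorem main_sys (hGS : ST_GS) (hUN : ST_UNF) (hST : ST_STRIP) (hEN : ST_EN)
    {M : AddSubgroup (V m)} (hM : IsLat M)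
    {N : ℂ → E m → Prop} {β : Fin (2 * m) → E m} {c δ : ℝ} (hN : Cusp N β c)
    (hNM : ∀ a b, N a b → T a b ∈ Gam M)
    {κ : Pt m → ℝ} {C a' : ℝ} (hK : Kap M κ C a')
    {ψ : ℝ → ℝ} {Mx k0 : ℝ} (hk0 : 0 ≤ k0) (hw : Wts M δ c ψ Mx k0)
    {ι : Type} [Fintype ι] {u : ι → Pt m → ℂ} (hS : Sys M ι u) (hum : ∀ i, Measurable (u i))
    {B : ℝ} (hB : ∀ i, ∀ p ∈ SD m, ‖u i p‖ ≤ B) (lam : ℂ) (heig : ∀ i, WeakEig lam (u i))
    (hW : ∀ i, ∀ r : ℝ, 0 < r →
      ENNReal.ofReal (muP m δ c r) * cellInt β c (fun p => ENNReal.ofReal (‖u i p‖ ^ 2)) r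
        ≤ cellInt β c (fun p => ENNReal.ofReal (gh (u i) p)) r)
    (hne : ∃ i, ∃ p ∈ SD m, u i p ≠ 0) :
    lam.im = 0 ∧ (k0 ≤ lam.re ∨ (lam.re < 0 ∧ ∀ i, ∀ p ∈ SD m, gsq (u i) p = 0)) := by
  set FA : Pt m → ℝ≥0∞ := fun p => ENNReal.ofReal (∑ i, ‖u i p‖ ^ 2) with hFA
  set FB : Pt m → ℝ≥0∞ := fun p => ENNReal.ofReal (∑ i, gsq (u i) p) with hFB
  have hFAm' : Measurable fun p => ∑ i, ‖u i p‖ ^ 2 :=
    Finset.measurable_sum _ (fun i _ => ((hum i).norm.pow_const 2))
  have hFBm' : Measurable fun p => ∑ i, gsq (u i) p :=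
    Finset.measurable_sum _ (fun i _ => main_measurable_gsq (u i))
  have hFAm : Measurable FA := hFAm'.ennreal_ofReal
  have hFBm : Measurable FB := hFBm'.ennreal_ofReal
  have hκm : Measurable (fun p => ENNReal.ofReal (κ p)) :=
    hK.smooth.continuous.measurable.ennreal_ofReal
  have hSAm : Measurable (fun p => ENNReal.ofReal (κ p) * FA p) := hκm.mul hFAm
  have hSBm : Measurable (fun p => ENNReal.ofReal (κ p) * FB p) := hκm.mul hFBm
  -- invariance
  have hFAi' : ∀ γ ∈ Gam M, ∀ p ∈ SD m, ∑ i, ‖u i (act γ p)‖ ^ 2 = ∑ i, ‖u i p‖ ^ 2 := by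
    intro γ hγ p hp
    obtain ⟨σ, hσ⟩ := hS.perm γ hγ
    rw [← Equiv.sum_comp σ (fun i => ‖u i p‖ ^ 2)]
    exact Finset.sum_congr rfl (fun i _ => by rw [hσ i p hp])
  have hFAi : ∀ γ ∈ Gam M, ∀ p ∈ SD m, FA (act γ p) = FA p := by
    intro γ hγ p hp
    simp only [hFA]
    rw [hFAi' γ hγ p hp]
  have hdiff : ∀ i, ∀ p ∈ SD m, DifferentiableAt ℝ (u i) p := by
    intro i p hp
    exact ((hS.smooth i).contDiffAt (isOpen_SD.mem_nhds hp)).differentiableAt (by norm_num)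
  have hFBi' : ∀ γ ∈ Gam M, ∀ p ∈ SD m, ∑ i, gsq (u i) (act γ p) = ∑ i, gsq (u i) p := by
    intro γ hγ p hp
    obtain ⟨σ, hσ⟩ := hS.perm γ hγ
    rw [← Equiv.sum_comp σ (fun i => gsq (u i) p)]
    refine Finset.sum_congr rfl (fun i _ => ?_)
    rw [← hGS m γ hγ.1 p hp (u i) (hdiff i _ (act_mem hγ.1 hp))]
    have he : (fun q => u i (act γ q)) =ᶠ[𝓝 p] u (σ i) := by
      filter_upwards [isOpen_SD.mem_nhds hp] with q hq using hσ i q hq
    unfold gsq pd XX YY
    rw [he.fderiv_eq]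
  have hFBi : ∀ γ ∈ Gam M, ∀ p ∈ SD m, FB (act γ p) = FB p := by
    intro γ hγ p hp
    simp only [hFB]
    rw [hFBi' γ hγ p hp]
  set SA := ∫⁻ p, ENNReal.ofReal (κ p) * FA p ∂(hyp m) with hSA
  set SB := ∫⁻ p, ENNReal.ofReal (κ p) * FB p ∂(hyp m) with hSB
  -- SA is finite
  have hSAtop : SA ≠ ⊤ := by
    have hle : SA ≤ ∫⁻ p, ENNReal.ofReal (κ p) * ENNReal.ofReal (∑ _i : ι, B ^ 2) ∂(hyp m) := by
      apply lintegral_mono_ae
      filter_upwards [ae_hyp_mem] with p hp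
      gcongr
      apply ENNReal.ofReal_le_ofReal
      exact Finset.sum_le_sum (fun i _ => pow_le_pow_left₀ (norm_nonneg _) (hB i p hp) 2)
    refine ne_top_of_le_ne_top ?_ hle
    rw [lintegral_mul_const _ hκm]
    exact ENNReal.mul_ne_top hK.lintegral_lt_top.ne ENNReal.ofReal_ne_top
  obtain ⟨hE1, hE2⟩ := hEN m M hM κ C a' hK ι inferInstance u hS lam heig hSAtop
  change SB ≤ ENNReal.ofReal lam.re * SA at hE1
  change lam.im = 0 ∨ SA = 0 at hE2
  have hgsq0 : ∀ i, ∀ p ∈ SD m, 0 ≤ gsq (u i) p := by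
    intro i p hp
    have hp0 : 0 < hgt p := hp
    unfold gsq
    positivity
  -- SA is positive
  have hSA0 : SA ≠ 0 := by
    intro h0
    obtain ⟨i, p, hp, hup⟩ := hne
    have hz := main_zero hUN hM hK hFAm' (continuousOn_finsetSum _ fun i _ =>
      ((hS.smooth i).continuousOn.norm.pow 2)) (fun p _ => by positivity) hFAi' h0 p hp
    have h3 : ‖u i p‖ ^ 2 ≤ ∑ j, ‖u j p‖ ^ 2 :=
      Finset.single_le_sum (f := fun j => ‖u j p‖ ^ 2) (fun j _ => by positivity)
        (Finset.mem_univ i)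
    have h4 : 0 < ‖u i p‖ ^ 2 := by positivity
    linarith
  have him : lam.im = 0 := hE2.resolve_right hSA0
  refine ⟨him, ?_⟩
  -- the chain
  obtain ⟨KK, hK0, hKtop, hKK⟩ := hST m M hM κ C a' hK N β c hN hNM
  have hup : ∫⁻ r in Set.Ioi (0 : ℝ), ENNReal.ofReal (ψ r) * cellInt β c FB r
        * ENNReal.ofReal ((r ^ (m + 2))⁻¹) ≤ KK * (ENNReal.ofReal Mx * SB) := by
    rw [hKK (fun r => ENNReal.ofReal (ψ r)) FB hw.meas.ennreal_ofReal hFBm hFBi]
    gcongr
    rw [hSB, ← lintegral_const_mul _ hSBm]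
    apply lintegral_mono_ae
    filter_upwards [ae_hyp_mem] with p hp
    calc _ ≤ ENNReal.ofReal (κ p) * ENNReal.ofReal Mx * FB p := by
            gcongr
            exact hw.up p hp
      _ = _ := by ring
  have hQm : Measurable fun r : ℝ => ENNReal.ofReal (muP m δ c r * ψ r) :=
    ((main_measurable_muP δ c).mul hw.meas).ennreal_ofReal
  have hlow : KK * (ENNReal.ofReal (k0 * Mx) * SA) ≤
      ∫⁻ r in Set.Ioi (0 : ℝ), ENNReal.ofReal (muP m δ c r * ψ r) * cellInt β c FA r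
        * ENNReal.ofReal ((r ^ (m + 2))⁻¹) := by
    rw [hKK (fun r => ENNReal.ofReal (muP m δ c r * ψ r)) FA hQm hFAm hFAi]
    gcongr
    rw [hSA, ← lintegral_const_mul _ hSAm]
    apply lintegral_mono_ae
    filter_upwards [hw.low] with p hp
    calc _ = ENNReal.ofReal (κ p) * ENNReal.ofReal (k0 * Mx) * FA p := by ring
      _ ≤ _ := by gcongr
  have hcA : ∀ r : ℝ, cellInt β c FA r
      = ∑ i, cellInt β c (fun p => ENNReal.ofReal (‖u i p‖ ^ 2)) r := by
    intro r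
    rw [← main_cellInt_sum β c Finset.univ (fun i p => ENNReal.ofReal (‖u i p‖ ^ 2))
      (fun i => ((hum i).norm.pow_const 2).ennreal_ofReal)]
    congr 1
    funext p
    simp only [hFA]
    rw [ENNReal.ofReal_sum_of_nonneg (fun i _ => by positivity)]
  have hgle : ∀ r : ℝ, 0 < r → ∑ i, cellInt β c (fun p => ENNReal.ofReal (gh (u i) p)) r
      ≤ cellInt β c FB r := by
    intro r hr
    have h1 : ∀ i, cellInt β c (fun p => ENNReal.ofReal (gh (u i) p)) r
        ≤ cellInt β c (fun p => ENNReal.ofReal (gsq (u i) p)) r := by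
      intro i
      unfold cellInt
      exact lintegral_mono fun x => ENNReal.ofReal_le_ofReal (main_gh_le_gsq _ _)
    refine (Finset.sum_le_sum fun i _ => h1 i).trans ?_
    rw [← main_cellInt_sum β c Finset.univ (fun i p => ENNReal.ofReal (gsq (u i) p))
      (fun i => (main_measurable_gsq (u i)).ennreal_ofReal)]
    unfold cellInt
    apply lintegral_mono
    intro x
    have hh : hgt (cellpt β c x r) = r := hgt_cellpt β c x r
    simp only [hFB]
    rw [ENNReal.ofReal_sum_of_nonneg (fun i _ => ?_)]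
    exact hgsq0 i _ (by change 0 < hgt _; rw [hh]; exact hr)
  have hmid : ∫⁻ r in Set.Ioi (0 : ℝ), ENNReal.ofReal (muP m δ c r * ψ r) * cellInt β c FA r
        * ENNReal.ofReal ((r ^ (m + 2))⁻¹) ≤
      ∫⁻ r in Set.Ioi (0 : ℝ), ENNReal.ofReal (ψ r) * cellInt β c FB r
        * ENNReal.ofReal ((r ^ (m + 2))⁻¹) := by
    apply setLIntegral_mono' measurableSet_Ioi
    intro r hr
    have hr0 : (0 : ℝ) < r := hr
    gcongr ?_ * _
    rw [mul_comm (muP m δ c r), ENNReal.ofReal_mul (hw.nonneg r), mul_assoc]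
    gcongr
    rw [hcA r, Finset.mul_sum]
    exact (Finset.sum_le_sum fun i _ => hW i r hr0).trans (hgle r hr0)
  have h1 := hlow.trans (hmid.trans hup)
  have hn0 : ENNReal.ofReal Mx ≠ 0 := by
    simpa using hw.pos
  have h2 : ENNReal.ofReal k0 * SA ≤ SB := by
    rw [ENNReal.mul_le_mul_iff_right hK0 hKtop, ENNReal.ofReal_mul hk0] at h1
    have e : ENNReal.ofReal k0 * ENNReal.ofReal Mx * SA
        = ENNReal.ofReal Mx * (ENNReal.ofReal k0 * SA) := by ring
    rwa [e, ENNReal.mul_le_mul_iff_right hn0 ENNReal.ofReal_ne_top] at h1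
  have h3 : ENNReal.ofReal k0 * SA ≤ ENNReal.ofReal lam.re * SA := h2.trans hE1
  rw [ENNReal.mul_le_mul_iff_left hSA0 hSAtop] at h3
  rcases le_or_gt 0 lam.re with hpos | hneg
  · left
    by_contra hlt
    push Not at hlt
    exact absurd h3 (not_le.2 ((ENNReal.ofReal_lt_ofReal_iff (hpos.trans_lt hlt)).2 hlt))
  · right
    have hSB0 : SB = 0 := by
      rw [ENNReal.ofReal_of_nonpos hneg.le, zero_mul] at hE1
      exact le_antisymm hE1 zero_le
    have hz := main_zero hUN hM hK hFBm' (continuousOn_finsetSum _ fun i _ =>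
      main_continuousOn_gsq (hS.smooth i))
      (fun p hp => Finset.sum_nonneg fun i _ => hgsq0 i p hp) hFBi' hSB0
    refine ⟨hneg, fun i p hp => ?_⟩
    exact (Finset.sum_eq_zero_iff_of_nonneg fun i _ => hgsq0 i p hp).1 (hz p hp) i
      (Finset.mem_univ i)

theorem st_MAIN (hKAP : ST_KAP) (hUN : ST_UNF) (hST : ST_STRIP) (hGR : ST_GREEN) (hWC : ST_WC)
    (hEN : ST_EN) (hPO : ST_POI) (hGS : ST_GS) (hCD : ST_CD) (hME : ST_ME) : ST_MAIN := by
  intro m M hM N β c δ hN hDM hδ hNM C0 a0 ha0 hcov ψ Mx k0 hk0 hw Δ hfi f hf hinv hbdd lam heig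
    hwid hcusp hne
  classical
  obtain ⟨B, hB⟩ := hbdd
  obtain ⟨κ, C, a', hK⟩ := hKAP m M hM C0 a0 ha0 hcov
  set f₀ : Pt m → ℂ := (SD m).indicator f with hf₀
  have hff : ∀ p ∈ SD m, f₀ p = f p := fun p hp => Set.indicator_of_mem hp f
  have hf₀c : ContDiffOn ℝ 2 f₀ (SD m) := hf.congr hff
  have hf₀m : Measurable f₀ := by
    have := (hf.continuousOn.measurable_piecewise (g := (0 : Pt m → ℂ))
      continuous_zero.continuousOn measurableSet_SD)
    rwa [Set.piecewise_eq_indicator] at this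
  have hOL : ∀ γ ∈ Gam M, γ ∈ UG m := fun γ hγ => hγ.1
  have hf₀i : ∀ γ ∈ Δ, γ ∈ UG m → ∀ p ∈ SD m, f₀ (act γ p) = f₀ p := by
    intro γ hγ hγ' p hp
    rw [hff _ (act_mem hγ' hp), hff p hp, hinv γ hγ p hp]
  have hf₀e : WeakEig lam f₀ := by
    apply hGR m f₀ hf₀c lam
    intro p hp
    rw [main_lap_congr hff p hp, heig p hp, hff p hp]
  let H : Subgroup (Gam M) := Δ.subgroupOf (Gam M)
  have hHi : H.index ≠ 0 := hfi
  have : H.FiniteIndex := ⟨hHi⟩
  have : Finite (Gam M ⧸ H) := Subgroup.finite_quotient_of_finiteIndex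
  have : Fintype (Gam M ⧸ H) := Fintype.ofFinite _
  let u : (Gam M ⧸ H) → Pt m → ℂ := fun q p => f₀ (act ((q.out : Gam M) : V m ≃ₗ[ℂ] V m)⁻¹ p)
  have hLGi : ∀ g : Gam M, ((g : V m ≃ₗ[ℂ] V m))⁻¹ ∈ UG m := fun g => (UG m).inv_mem g.2.1
  -- independence of the representative
  have hrep : ∀ (g : Gam M), ∀ p ∈ SD m,
      u (g : Gam M ⧸ H) p = f₀ (act (g : V m ≃ₗ[ℂ] V m)⁻¹ p) := by
    intro g p hp
    obtain ⟨h, hh⟩ := QuotientGroup.mk_out_eq_mul H g
    simp only [u]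
    rw [hh]
    have e : (((g * (h : Gam M) : Gam M) : V m ≃ₗ[ℂ] V m))⁻¹
        = ((h : Gam M) : V m ≃ₗ[ℂ] V m)⁻¹ * (g : V m ≃ₗ[ℂ] V m)⁻¹ := by
      push_cast
      rw [mul_inv_rev]
    rw [e, act_mul _ (hLGi g) hp]
    apply hf₀i _ _ (hLGi h) _ (act_mem (hLGi g) hp)
    exact Δ.inv_mem h.2
  have hum : ∀ q, Measurable (u q) := fun q => hf₀m.comp (hME m _)
  have huc : ∀ q, ContDiffOn ℝ 2 (u q) (SD m) := fun q =>
    hf₀c.comp (hCD m _ (hLGi _)) (fun p hp => act_mem (hLGi _) hp)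
  have hS : Sys M (Gam M ⧸ H) u := by
    refine ⟨huc, ?_⟩
    intro γ hγ
    refine ⟨MulAction.toPerm (⟨γ, hγ⟩⁻¹ : Gam M), ?_⟩
    intro q p hp
    obtain ⟨g, rfl⟩ := QuotientGroup.mk_surjective q
    rw [hrep g _ (act_mem (hOL γ hγ) hp)]
    have e1' : (MulAction.toPerm (⟨γ, hγ⟩⁻¹ : Gam M)) ((g : Gam M) : Gam M ⧸ H)
        = (((⟨γ, hγ⟩⁻¹ : Gam M) * g : Gam M) : Gam M ⧸ H) := rfl
    rw [e1', hrep _ p hp, ← act_mul _ (hOL γ hγ) hp]
    congr 2
  have hper : ∀ q, ∀ a b, N a b → ∀ p ∈ SD m, u q (act (T a b) p) = u q p := by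
    intro q a b hab p hp
    simp only [u]
    have hgG : ((q.out : Gam M) : V m ≃ₗ[ℂ] V m)⁻¹ ∈ Gam M := (Gam M).inv_mem (q.out : Gam M).2
    have hl : ((q.out : Gam M) : V m ≃ₗ[ℂ] V m)⁻¹ * T a b *
        ((q.out : Gam M) : V m ≃ₗ[ℂ] V m) ∈ Δ := by
      have := hwid _ hgG a b hab
      rwa [inv_inv] at this
    have hTU : T a b ∈ UG m := T_mem_UG (hN.norm a b hab)
    have e : ((q.out : Gam M) : V m ≃ₗ[ℂ] V m)⁻¹ * T a b
        = (((q.out : Gam M) : V m ≃ₗ[ℂ] V m)⁻¹ * T a b *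
            ((q.out : Gam M) : V m ≃ₗ[ℂ] V m))
          * ((q.out : Gam M) : V m ≃ₗ[ℂ] V m)⁻¹ := by group
    rw [← act_mul _ hTU hp, e, act_mul _ (hOL _ hgG) hp]
    refine hf₀i _ hl ?_ _ (act_mem (hOL _ hgG) hp)
    exact (UG m).mul_mem ((UG m).mul_mem (hOL _ hgG) hTU) (q.out : Gam M).2.1
  have hcell : ∀ (x : (Fin (2 * m) → ℝ) × ℝ) (r : ℝ), 0 < r → cellpt β c x r ∈ SD m := by
    intro x r hr
    show 0 < hgt (cellpt β c x r)
    rw [hgt_cellpt]; exact hr
  have hmean : ∀ q, ∀ r : ℝ, 0 < r →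
      ∫ x in Set.Icc (0 : (Fin (2 * m) → ℝ) × ℝ) 1, u q (cellpt β c x r) = 0 := by
    intro q r hr
    rw [← hcusp _ ((Gam M).inv_mem (q.out : Gam M).2) r hr]
    congr 1
    funext x
    exact hff _ (act_mem (hLGi _) (hcell x r hr))
  have huB : ∀ q, ∀ p ∈ SD m, ‖u q p‖ ≤ B := by
    intro q p hp
    simp only [u]
    rw [hff _ (act_mem (hLGi _) hp)]
    exact hB _ (act_mem (hLGi _) hp)
  have hu1 : ∀ p ∈ SD m, u ((1 : Gam M) : Gam M ⧸ H) p = f p := by
    intro p hp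
    rw [hrep 1 p hp, Subgroup.coe_one, inv_one, act_one p, hff p hp]
  have hne' : ∃ q, ∃ p ∈ SD m, u q p ≠ 0 := by
    obtain ⟨p, hp, hfp⟩ := hne
    refine ⟨((1 : Gam M) : Gam M ⧸ H), p, hp, ?_⟩
    rw [hu1 p hp]
    exact hfp
  obtain ⟨h1, h2⟩ := main_sys hGS hUN hST hEN hM hN hNM hK hk0 hw hS hum huB lam
    (fun q => hWC m _ (hLGi _) f₀ (hf₀c.of_le (by norm_num)) lam hf₀e)
    (fun q r hr => hPO m N β c δ hN hDM (u q) (huc q) (hper q) r hr (hmean q r hr)) hne'
  refine ⟨lam.re, ?_, by apply Complex.ext <;> simp [h1]⟩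
  rcases h2 with h2 | ⟨hneg, h2⟩
  · exact h2
  · exfalso
    obtain ⟨p, hp, hfp⟩ := hne
    have h3 := main_lap_zero (h2 ((1 : Gam M) : Gam M ⧸ H)) p hp
    rw [main_lap_congr hu1 p hp, heig p hp] at h3
    have h4 : lam = 0 := by
      rcases mul_eq_zero.1 h3 with h | h
      · simpa using h
      · exact absurd h hfp
    rw [h4] at hneg
    simp at hneg

end Pool.Agent.Helper19.Un
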